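import Pool.Agent.Helper43.K33

/-!
# An even-hole-free graph with `K_{3,3}` as an induced minor
-/

set_option autoImplicit false

namespace Pool.Agent.Results.MP_c16527_co.EvenHoleFreeGraph

open Pool.Agent.Helper43

private theorem degrees : ∀ v, (Finset.univ.filter fun w => K33.GG.Adj v w).card ≤ 4 := by
  decide

private theorem cycle_adj (m : ℕ) (hm : 4 ≤ m) (i j : Fin m) :
    (SimpleGraph.cycleGraph m).Adj i j ↔
      (((i : ℕ) + 1) % m = (j : ℕ) ∨ ((j : ℕ) + 1) % m = (i : ℕ)) := by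
  obtain ⟨n, rfl⟩ : ∃ n, m = n + 2 := ⟨m - 2, by omega⟩
  rw [SimpleGraph.cycleGraph_adj]
  have h1 : ∀ a b : Fin (n + 2), a - b = 1 ↔ ((b : ℕ) + 1) % (n + 2) = (a : ℕ) := by
    intro a b
    rw [sub_eq_iff_eq_add, Fin.ext_iff, Fin.val_add, Fin.val_one, add_comm 1 (b : ℕ)]
    exact eq_comm
  rw [h1, h1]
  exact or_comm

/-- There is a graph on 12 vertices with maximum degree 4 in which every induced cycle with at
least four vertices is odd and which has `K_{3,3}` as an induced minor. -/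
theorem result : ∃ G : SimpleGraph (Fin 12),
    (∀ m : ℕ, 4 ≤ m → Even m → IsEmpty (SimpleGraph.cycleGraph m ↪g G)) ∧
    (∀ v, (G.neighborSet v).ncard ≤ 4) ∧
    ∃ B : Fin 3 ⊕ Fin 3 → Set (Fin 12),
      (∀ x, (G.induce (B x)).Connected) ∧
      (∀ x y, x ≠ y → Disjoint (B x) (B y)) ∧
      (∀ x y, x ≠ y →
        ((∃ u ∈ B x, ∃ v ∈ B y, G.Adj u v) ↔
          (completeBipartiteGraph (Fin 3) (Fin 3)).Adj x y)) := by
  refine ⟨K33.GG, ?_, ?_, K33.has_minor⟩
  · intro m hm hev
    refine ⟨fun f => ?_⟩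
    have h := (K33.hole_facts (fun i => f i) hm f.injective fun i j => by
      rw [← cycle_adj m hm i j]
      exact f.map_adj_iff).1
    rw [Nat.even_iff] at hev
    omega
  · intro v
    have h : K33.GG.neighborSet v = ↑(Finset.univ.filter fun w => K33.GG.Adj v w) := by
      ext w
      simp
    rw [h, Set.ncard_coe_finset]
    exact degrees v

end Pool.Agent.Results.MP_c16527_co.EvenHoleFreeGraph
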